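import Pool.Agent.Helper87.MX.Fr

/-!
# MixingRates, W3a: the first scale
-/

set_option autoImplicit false

open MeasureTheory Finset Filter

namespace Pool.Agent.Helper45.MX

open Pool.Agent.Helper87.MX

theorem measurable_ball (μ : Measure Tor) [SFinite μ] (r : ℝ) :
    Measurable fun x : Tor => μ (Metric.closedBall x r) := by
  have hS : MeasurableSet {p : Tor × Tor | dist p.2 p.1 ≤ r} :=
    (isClosed_le (continuous_snd.dist continuous_fst) continuous_const).measurableSet
  exact measurable_measure_prodMk_left hS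

theorem cover (n : ℕ) (hn : 0 < n) (x : Tor) :
    ∃ i : Fin n, x ∈ Metric.closedBall (((((i : ℕ) : ℝ) + 1 / 2) / n : ℝ) : Tor) (1 / (2 * n)) := by
  have hn' : (0 : ℝ) < n := Nat.cast_pos.mpr hn
  obtain ⟨t, ht, rfl⟩ : ∃ t ∈ Set.Ico (0 : ℝ) 1, ((t : ℝ) : Tor) = x := by
    have := AddCircle.coe_image_Ico_eq (1 : ℝ) 0
    have hx : x ∈ ((↑) : ℝ → Tor) '' Set.Ico 0 (0 + 1) := by rw [this]; trivial
    simpa using hx
  have h0 : 0 ≤ t * n := mul_nonneg ht.1 hn'.le
  have h1 : t * n < n := by nlinarith [ht.2]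
  have h2 : ⌊t * n⌋₊ < n := (Nat.floor_lt h0).2 h1
  refine ⟨⟨⌊t * n⌋₊, h2⟩, ?_⟩
  rw [Metric.mem_closedBall, dist_eq_norm, ← AddCircle.coe_sub]
  refine (QuotientAddGroup.norm_mk_le_norm (M := ℝ)).trans ?_
  have h3 : (⌊t * n⌋₊ : ℝ) ≤ t * n := Nat.floor_le h0
  have h4 : t * n < ⌊t * n⌋₊ + 1 := Nat.lt_floor_add_one _
  have h5 : t - ((⌊t * n⌋₊ : ℝ) + 1 / 2) / n = (t * n - ((⌊t * n⌋₊ : ℝ) + 1 / 2)) / n := by
    field_simp
  rw [Real.norm_eq_abs, h5, abs_div, abs_of_pos hn', div_le_div_iff₀ hn' (by positivity)]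
  have h6 : |t * n - ((⌊t * n⌋₊ : ℝ) + 1 / 2)| ≤ 1 / 2 := by
    rw [abs_le]; constructor <;> linarith
  nlinarith

theorem lint_inv (μ : Measure Tor) [IsProbabilityMeasure μ] (n : ℕ) (hn : 0 < n) :
    ∫⁻ x, (μ (Metric.closedBall x (1 / n)))⁻¹ ∂μ ≤ n := by
  set B : Fin n → Set Tor := fun i =>
    Metric.closedBall (((((i : ℕ) : ℝ) + 1 / 2) / n : ℝ) : Tor) (1 / (2 * n)) with hB
  have hU : (⋃ i, B i) = Set.univ := by
    rw [Set.eq_univ_iff_forall]
    intro x
    exact Set.mem_iUnion.2 (cover n hn x)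
  calc ∫⁻ x, (μ (Metric.closedBall x (1 / n)))⁻¹ ∂μ
      = ∫⁻ x in ⋃ i, B i, (μ (Metric.closedBall x (1 / n)))⁻¹ ∂μ := by
        rw [hU, Measure.restrict_univ]
    _ ≤ ∑' i, ∫⁻ x in B i, (μ (Metric.closedBall x (1 / n)))⁻¹ ∂μ := lintegral_iUnion_le _ _
    _ = ∑ i, ∫⁻ x in B i, (μ (Metric.closedBall x (1 / n)))⁻¹ ∂μ := tsum_fintype _
    _ ≤ ∑ _i : Fin n, 1 := by
        refine Finset.sum_le_sum fun i _ => ?_
        calc ∫⁻ x in B i, (μ (Metric.closedBall x (1 / n)))⁻¹ ∂μ
            ≤ ∫⁻ _x in B i, (μ (B i))⁻¹ ∂μ := by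
              refine setLIntegral_mono' Metric.isClosed_closedBall.measurableSet fun x hx => ?_
              refine ENNReal.inv_le_inv.2 (measure_mono fun y hy => ?_)
              rw [Metric.mem_closedBall] at hx hy ⊢
              have := dist_triangle_right y x (((((i : ℕ) : ℝ) + 1 / 2) / n : ℝ) : Tor)
              have e : (1 : ℝ) / n = 1 / (2 * n) + 1 / (2 * n) := by
                have : (0 : ℝ) < n := Nat.cast_pos.mpr hn
                field_simp
                norm_num
              rw [e]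
              linarith
          _ = (μ (B i))⁻¹ * μ (B i) := by
              rw [setLIntegral_const]
          _ ≤ 1 := ENNReal.inv_mul_le_one _
    _ = n := by simp

theorem s_W3a : S_W3a := by
  intro μ _ k hk
  have hk2 : 0 < 2 * k := by omega
  have hl := lint_inv μ (2 * k) hk2
  have hcast : (((2 * k : ℕ) : ℝ)) = 2 * (k : ℝ) := by push_cast; ring
  rw [hcast] at hl
  have hm : Measurable fun x : Tor => μ (Metric.closedBall x (1 / (2 * (k : ℝ)))) :=
    measurable_ball μ _
  have hm' : Measurable fun x : Tor => (μ.real (Metric.closedBall x (1 / (2 * (k : ℝ)))))⁻¹ :=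
    (hm.ennreal_toReal).inv
  have hle : ∀ x : Tor, ENNReal.ofReal (μ.real (Metric.closedBall x (1 / (2 * (k : ℝ)))))⁻¹ ≤
      (μ (Metric.closedBall x (1 / (2 * (k : ℝ)))))⁻¹ := by
    intro x
    rw [Measure.real, ← ENNReal.toReal_inv]
    exact ENNReal.ofReal_toReal_le
  have hL : ∫⁻ x, ENNReal.ofReal (μ.real (Metric.closedBall x (1 / (2 * (k : ℝ)))))⁻¹ ∂μ ≤
      ((2 * k : ℕ) : ENNReal) := (lintegral_mono hle).trans hl
  have hint : Integrable (fun x : Tor => (μ.real (Metric.closedBall x (1 / (2 * (k : ℝ)))))⁻¹) μ := by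
    refine ⟨hm'.aestronglyMeasurable, ?_⟩
    rw [hasFiniteIntegral_iff_ofReal (Filter.Eventually.of_forall fun x => by positivity)]
    exact hL.trans_lt (ENNReal.natCast_lt_top _)
  unfold phi
  calc ∫ x, -Real.log (μ.real (Metric.closedBall x (1 / (2 * (k : ℝ))))) ∂μ
      ≤ ∫ x, (μ.real (Metric.closedBall x (1 / (2 * (k : ℝ)))))⁻¹ ∂μ := by
        refine integral_mono_of_nonneg (Filter.Eventually.of_forall fun x => ?_) hint
          (Filter.Eventually.of_forall fun x => ?_)
        · exact neg_nonneg.2 (Real.log_nonpos measureReal_nonneg measureReal_le_one)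
        · rcases eq_or_lt_of_le (measureReal_nonneg
            (μ := μ) (s := Metric.closedBall x (1 / (2 * (k : ℝ))))) with h | h
          · show -Real.log (μ.real _) ≤ (μ.real _)⁻¹
            rw [← h]; simp
          · have := Real.one_sub_inv_le_log_of_pos h
            show -Real.log _ ≤ _
            linarith
    _ ≤ 2 * k := by
        rw [integral_eq_lintegral_of_nonneg_ae (Filter.Eventually.of_forall fun x => by positivity)
          hm'.aestronglyMeasurable]
        refine (ENNReal.toReal_mono (ENNReal.natCast_ne_top _) hL).trans ?_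
        simp

end Pool.Agent.Helper45.MX
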