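import Mathlib
import Pool.Agent.Helper47.M.Defs
import Pool.Agent.Helper92.CI.Defs

/-!
# Theorem M, block L: natural coordinates
-/

set_option autoImplicit false

namespace Pool.Agent.Helper45.MX

open MvPolynomial AlgebraicGeometry CategoryTheory Pool.Agent.Helper15 Pool.Agent.Helper47.M

variable {k l : ℕ} {N : Fin k → ℕ} {d : Fin l → Fin k → ℕ}

/-- The value of a monomial. -/
noncomputable def mono (K : Type*) [Field K] (N : Fin k → ℕ) {e : Fin k → ℕ} (s : Mono N e) :
    MvPolynomial (Vr N) K :=
  ∏ r, ((s r : Multiset (Fin (N r + 1))).map (ch K N r)).prod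

/-- The form with the coefficients of `transfer`. -/
theorem form_sum {K : Type*} [Field K] {ι : Type*} [Fintype ι] (σ : ι → Σ i, Mono N (d i))
    (b : ι → K) (i : Fin l) [DecidableEq (Σ i, Mono N (d i))] :
    form (d i) (fun s => ∑ e with σ e = ⟨i, s⟩, b e) =
      ∑ e with (σ e).1 = i, C (b e) * mono K N (σ e).2 := by
  classical
  unfold form
  have h1 : ∀ s : Mono N (d i), (C (∑ e with σ e = ⟨i, s⟩, b e) : MvPolynomial _ K) *
      ∏ r, ((s r : Multiset (Fin (N r + 1))).map (ch K N r)).prod =
      ∑ e, if σ e = ⟨i, s⟩ then C (b e) * mono K N (σ e).2 else 0 := by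
    intro s
    rw [map_sum, Finset.sum_mul, Finset.sum_filter]
    refine Finset.sum_congr rfl fun e _ => ?_
    split_ifs with h
    · rw [h]; rfl
    · rfl
  rw [Finset.sum_congr rfl fun s _ => h1 s, Finset.sum_comm, Finset.sum_filter]
  refine Finset.sum_congr rfl fun e _ => ?_
  split_ifs with h
  · subst h
    rw [Finset.sum_eq_single (σ e).2]
    · rw [if_pos rfl]
    · intro s _ hs
      rw [if_neg]
      intro h2
      apply hs
      have := Sigma.mk.inj_iff.mp h2
      exact (eq_of_heq this.2).symm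
    · intro h2
      exact absurd (Finset.mem_univ _) h2
  · apply Finset.sum_eq_zero
    intro s _
    rw [if_neg]
    intro h2
    exact h (by rw [h2])

/-- The monomial which belongs to an index. -/
def mk {e : Fin k → ℕ} (m : Tn N e) : Mono N e := fun r =>
  ⟨(Finset.univ : Finset (Fin (e r))).val.map (m r), by simp⟩

/-- The map of the indices of the coefficients. -/
def sg (e : Tx N d) : Σ i, Mono N (d i) := ⟨e.1, mk e.2⟩

theorem exists_fun {α : Type*} {n : ℕ} (s : Sym α n) :
    ∃ f : Fin n → α, (Finset.univ : Finset (Fin n)).val.map f = (s : Multiset α) := by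
  obtain ⟨s, hs⟩ := s
  induction s using Quotient.inductionOn with
  | _ L =>
    have hL : L.length = n := by simpa using hs
    subst hL
    refine ⟨L.get, ?_⟩
    show Multiset.map L.get (Finset.univ : Finset (Fin L.length)).val = (L : Multiset α)
    have h1 : (Finset.univ : Finset (Fin L.length)).val = (List.finRange L.length : Multiset _) :=
      rfl
    rw [h1, Multiset.map_coe]
    congr 1
    exact List.map_get_finRange L

theorem sg_surjective : Function.Surjective (sg (N := N) (d := d)) := by
  rintro ⟨i, s⟩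
  choose f hf using fun r => exists_fun (s r)
  refine ⟨⟨i, f⟩, ?_⟩
  show (⟨i, mk f⟩ : Σ i, Mono N (d i)) = ⟨i, s⟩
  congr 1
  funext r
  exact Subtype.ext (hf r)

theorem mono_mk {K : Type*} [Field K] {e : Fin k → ℕ} (m : Tn N e) :
    mono K N (mk m) = ∏ r, ∏ t, ch K N r (m r t) := by
  unfold mono mk
  refine Finset.prod_congr rfl fun r _ => ?_
  show ((Finset.univ.val.map (m r)).map (ch K N r)).prod = _
  rw [Multiset.map_map]
  rfl

theorem ideal_eq {K : Type} [Field K] [NumberField K] (c : Tx N d → K)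
    [DecidableEq (Σ i, Mono N (d i))] :
    ideal d (fun s => ∑ e with sg e = s, algebraMap ℚ K 1 * c e) = idl c := by
  rw [ideal, idl]
  congr 2
  funext i
  rw [form_sum sg (fun e => algebraMap ℚ K 1 * c e) i, Finset.sum_filter]
  have h1 : ∀ e : Tx N d, (if (sg e).1 = i then
      C (algebraMap ℚ K 1 * c e) * mono K N (sg e).2 else 0) =
      if e.1 = i then C (c e) * mono K N (mk e.2) else (0 : MvPolynomial (Vr N) K) := by
    intro e
    rw [map_one, one_mul]
    rfl
  rw [Finset.sum_congr rfl fun e _ => h1 e, Fintype.sum_sigma, Finset.sum_eq_single i]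
  · rw [Fm, fv, tv]
    refine Finset.sum_congr rfl fun m _ => ?_
    rw [if_pos rfl, mono_mk]
  · intro i' _ hi'
    apply Finset.sum_eq_zero
    intro e _
    rw [if_neg hi']
  · intro h2
    exact absurd (Finset.mem_univ _) h2

/-- The natural statement from the statement in tensor coordinates. -/
theorem natural_of (e : ℕ)
    (hmain : ∃ Δ : MvPolynomial (Tx N d) ℚ, Δ ≠ 0 ∧ ∀ (K : Type) [Field K] [NumberField K]
      (c : Tx N d → K), aeval c Δ ≠ 0 → Good (idl c) e) :
    ∃ Δ : MvPolynomial (Σ i, Mono N (d i)) ℚ, Δ ≠ 0 ∧ ∀ (K : Type) [Field K] [NumberField K]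
      (a : (Σ i, Mono N (d i)) → K), aeval a Δ ≠ 0 → Good (ideal d a) e := by
  classical
  refine Pool.Agent.Helper92.CI.transfer (sg (N := N) (d := d)) sg_surjective (fun _ => 1)
    (fun _ => one_ne_zero) (fun K _ _ c => Good (ideal d c) e) ?_
  obtain ⟨Δ, hΔ, H⟩ := hmain
  refine ⟨Δ, hΔ, fun K _ _ c hc => ?_⟩
  rw [ideal_eq c]
  exact H K c hc

end Pool.Agent.Helper45.MX
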