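import Mathlib
import Pool.Agent.Helper47.M.Defs
import Pool.Agent.Helper92.CI.Defs

/-!
# Theorem M, piece TR: the case of equal dimensions `N r = l` from Theorem K
-/

set_option autoImplicit false

namespace Pool.Agent.Helper45.MX

open MvPolynomial AlgebraicGeometry CategoryTheory Pool.Agent.Helper15 Pool.Agent.Helper47.M

/-- Two prime ideals, one in the other, with residue rings of the same finite transcendence degree
are equal. -/
theorem eq_of_le_of_trdeg {K A : Type} [Field K] [CommRing A] [Algebra K A] {I P : Ideal A}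
    (hI : I.IsPrime) (hP : P.IsPrime) (h : I ≤ P) {e : ℕ}
    (h1 : Algebra.trdeg K (A ⧸ I) = (e : ℕ)) (h2 : Algebra.trdeg K (A ⧸ P) = (e : ℕ)) :
    I = P := by
  haveI := hI
  haveI := hP
  refine le_antisymm h fun x hx => ?_
  by_contra hxI
  set π : (A ⧸ I) →ₐ[K] (A ⧸ P) := Ideal.Quotient.factorₐ K h with hπ
  have hsurj : Function.Surjective π := Ideal.Quotient.factor_surjective h
  haveI : FaithfulSMul K (A ⧸ P) :=
    (faithfulSMul_iff_algebraMap_injective K (A ⧸ P)).2 (algebraMap K (A ⧸ P)).injective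
  obtain ⟨ι, y, hy⟩ := exists_isTranscendenceBasis' K (A ⧸ P)
  have hcard : Cardinal.mk ι = (e : ℕ) := by
    rw [← h2]
    exact hy.cardinalMk_eq_trdeg
  choose z hz using fun i => hsurj (y i)
  have hzy : (π ∘ z) = y := funext hz
  have hzi : AlgebraicIndependent K z := AlgebraicIndependent.of_comp π (by rw [hzy]; exact hy.1)
  haveI : Finite ι := by
    rw [← Cardinal.lt_aleph0_iff_finite, hcard]
    exact Cardinal.natCast_lt_aleph0
  have hzb : IsTranscendenceBasis K z :=
    hzi.isTranscendenceBasis_of_trdeg_le_of_finite (by rw [h1, hcard])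
  have halg := hzb.isAlgebraic
  have hx0 : (Ideal.Quotient.mk I x) ∈ nonZeroDivisors (A ⧸ I) := by
    rw [mem_nonZeroDivisors_iff_ne_zero]
    rwa [Ne, Ideal.Quotient.eq_zero_iff_mem]
  obtain ⟨r, hr, hdvd⟩ := (halg.isAlgebraic (Ideal.Quotient.mk I x)).exists_nonzero_dvd hx0
  obtain ⟨r, hrm⟩ := r
  have hr0 : r ≠ 0 := fun h0 => hr (Subtype.ext h0)
  rw [Algebra.adjoin_range_eq_range_aeval] at hrm
  obtain ⟨f, hf⟩ := hrm
  have hf' : aeval z f = r := hf
  have hπr : π r = 0 := by
    obtain ⟨t, ht⟩ := hdvd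
    have ht' : r = Ideal.Quotient.mk I x * t := ht
    rw [ht', map_mul]
    have : π (Ideal.Quotient.mk I x) = 0 := by
      show Ideal.Quotient.mk P x = 0
      exact Ideal.Quotient.eq_zero_iff_mem.2 hx
    rw [this, zero_mul]
  have h5 : aeval y f = 0 := by
    rw [← hzy, ← hπr, ← hf']
    exact (MvPolynomial.comp_aeval_apply z π f).symm
  have h6 : f = 0 := hy.1.eq_zero_of_aeval_eq_zero f h5
  exact hr0 (by rw [← hf', h6, map_zero])

/-- `BirationalOver` along an isomorphism of algebras. -/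
theorem birational_congr {K : Type} [Field K] {A B : Type} [CommRing A] [CommRing B] [Algebra K A]
    [Algebra K B] (e : A ≃ₐ[K] B) {X : Scheme.{0}} {s : X ⟶ Spec (CommRingCat.of K)}
    (h : BirationalOver K X (Spec (CommRingCat.of A)) s
      (Spec.map (CommRingCat.ofHom (algebraMap K A)))) :
    BirationalOver K X (Spec (CommRingCat.of B)) s
      (Spec.map (CommRingCat.ofHom (algebraMap K B))) := by
  obtain ⟨W, i, j, hi, hj, hW, hij⟩ := h
  haveI := hj
  let E : CommRingCat.of B ≅ CommRingCat.of A := (e.symm.toRingEquiv).toCommRingCatIso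
  refine ⟨W, i, j ≫ Spec.map E.hom, hi, inferInstance, hW, ?_⟩
  rw [hij, Category.assoc, ← Spec.map_comp]
  congr 2
  ext x
  exact (e.symm.commutes x).symm

section rename

variable {K : Type} [Field K] {k n : ℕ}

/-- The renaming of the coordinates. -/
noncomputable def ren (K : Type) [Field K] (k n : ℕ) :
    MvPolynomial (Vr fun _ : Fin k => n) K ≃ₐ[K] MvPolynomial (Fin k × Fin n) K :=
  renameEquiv K (Equiv.sigmaEquivProd (Fin k) (Fin n))

theorem ren_ch (r : Fin k) (i : Fin (n + 1)) :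
    ren K k n (ch K (fun _ => n) r i) = Pool.Agent.Helper92.CI.coord K k n r i := by
  refine Fin.cases ?_ (fun j => ?_) i
  · simp [ren, ch, Pool.Agent.Helper92.CI.coord]
  · simp [ren, ch, Pool.Agent.Helper92.CI.coord, Equiv.sigmaEquivProd]

theorem ren_form (e : Fin k → ℕ) (a : Mono (fun _ : Fin k => n) e → K) :
    ren K k n (form e a) = Pool.Agent.Helper92.CI.form (n := n) e a := by
  unfold form Pool.Agent.Helper92.CI.form
  rw [map_sum]
  refine Finset.sum_congr rfl fun s _ => ?_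
  rw [map_mul, map_prod]
  congr 1
  · simp [ren]
  · refine Finset.prod_congr rfl fun r _ => ?_
    rw [map_multiset_prod, Multiset.map_map]
    congr 1
    refine Multiset.map_congr rfl fun i _ => ?_
    exact ren_ch r i

theorem ren_ideal {l : ℕ} (d : Fin l → Fin k → ℕ)
    (a : (Σ i, Mono (fun _ : Fin k => n) (d i)) → K) :
    Pool.Agent.Helper92.CI.ideal (n := n) d a =
      (ideal d a).map (ren K k n : _ →+* MvPolynomial (Fin k × Fin n) K) := by
  unfold ideal Pool.Agent.Helper92.CI.ideal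
  rw [Ideal.map_span, ← Set.range_comp]
  congr 2
  funext i
  exact (ren_form (d i) fun s => a ⟨i, s⟩).symm

theorem good_tr {l : ℕ} (d : Fin l → Fin k → ℕ)
    (a : (Σ i, Mono (fun _ : Fin k => n) (d i)) → K) (e : ℕ)
    (h : Pool.Agent.Helper92.CI.Good K (Pool.Agent.Helper92.CI.ideal (n := n) d a) e) :
    IsDom (ideal d a) e (ideal d a) ∧ Good (ideal d a) e := by
  obtain ⟨hp, helim, htr, hpd⟩ := h
  set J := Pool.Agent.Helper92.CI.ideal (n := n) d a with hJ
  set I := ideal d a with hI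
  have hIJ : J = I.map (ren K k n : _ →+* MvPolynomial (Fin k × Fin n) K) := ren_ideal d a
  have hcom : I = J.comap (ren K k n : _ →+* MvPolynomial (Fin k × Fin n) K) := by
    rw [hIJ]
    exact (Ideal.comap_map_of_bijective _ (ren K k n).bijective).symm
  have hIp : I.IsPrime := by
    rw [hcom]
    exact hp.comap _
  let E : (MvPolynomial (Vr fun _ : Fin k => n) K ⧸ I) ≃ₐ[K]
      (MvPolynomial (Fin k × Fin n) K ⧸ J) := Ideal.quotientEquivAlg I J (ren K k n) hIJ
  have hdom : IsDom I e I := by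
    refine ⟨hIp, le_rfl, fun r Φ hΦ hv => ?_, ?_⟩
    · have h1 : ren K k n Φ ∈ J := by
        rw [hIJ]
        exact Ideal.mem_map_of_mem _ hΦ
      have h2 : ren K k n Φ = 0 := by
        refine helim r _ h1 fun v hv' => ?_
        obtain ⟨w, hw, rfl⟩ := mem_vars_rename _ _ hv'
        exact hv w hw
      exact (map_eq_zero_iff _ (ren K k n).injective).1 h2
    · rw [E.trdeg_eq]
      exact htr
  refine ⟨hdom, ⟨I, hdom⟩, fun P hP X s _ hX => ?_⟩
  obtain rfl : I = P := eq_of_le_of_trdeg hIp hP.prime hP.le hdom.trdeg hP.trdeg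
  exact hpd X s (birational_congr E hX)

end rename

/-- The case of equal dimensions. -/
theorem tr {k l : ℕ} {N : Fin k → ℕ} {d : Fin l → Fin k → ℕ} (h : Ty N d) (hN : ∀ r, N r = l)
    (hK : (∀ i r, 0 < d i r) → (∀ r, ∑ i, d i r = l + 1) →
      ∃ Δ : MvPolynomial (Σ i, Pool.Agent.Helper92.CI.Mono l (d i)) ℚ, Δ ≠ 0 ∧
      ∀ (K : Type) [Field K] [NumberField K] (a : (Σ i, Pool.Agent.Helper92.CI.Mono l (d i)) → K),
        aeval a Δ ≠ 0 → Pool.Agent.Helper92.CI.Good K (Pool.Agent.Helper92.CI.ideal d a)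
          ((k - 1) * l)) :
    ∃ Δ : MvPolynomial (Σ i, Mono N (d i)) ℚ, Δ ≠ 0 ∧ ∀ (K : Type) [Field K] [NumberField K]
      (a : (Σ i, Mono N (d i)) → K), aeval a Δ ≠ 0 →
        IsDom (ideal d a) (∑ r, N r - l) (ideal d a) ∧ Good (ideal d a) (∑ r, N r - l) := by
  obtain rfl : N = fun _ => l := funext hN
  obtain ⟨Δ, hΔ, H⟩ := hK h.pos fun r => h.sum r
  have he : ∑ _r : Fin k, l - l = (k - 1) * l := by
    rw [Finset.sum_const, Finset.card_univ, Fintype.card_fin, smul_eq_mul, Nat.sub_mul, one_mul]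
  refine ⟨Δ, hΔ, fun K _ _ a ha => ?_⟩
  rw [he]
  exact good_tr d a _ (H K a ha)

end Pool.Agent.Helper45.MX
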