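import Mathlib
import Pool.Agent.Helper47.M.Defs

/-!
# Theorem M, block T: the multidegrees in a factor with `N j = l`
-/

set_option autoImplicit false

namespace Pool.Agent.Helper45.MX

open Pool.Agent.Helper47.M

variable {k l : ℕ} {N : Fin k → ℕ} {d : Fin l → Fin k → ℕ}

theorem exists_two (h : Ty N d) (j : Fin k) (hj : N j = l) :
    ∃ i0, d i0 j = 2 ∧ ∀ i, i ≠ i0 → d i j = 1 := by
  have h1 : ∑ i, (d i j - 1) = 1 := by
    have h2 : ∑ i, (d i j - 1) + ∑ _i : Fin l, 1 = ∑ i, d i j := by
      rw [← Finset.sum_add_distrib]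
      refine Finset.sum_congr rfl fun i _ => ?_
      have := h.pos i j
      omega
    rw [h.sum j, hj] at h2
    simp only [Finset.sum_const, Finset.card_univ, Fintype.card_fin, smul_eq_mul, mul_one] at h2
    omega
  have h3 : ∃ i0, d i0 j - 1 ≠ 0 := by
    by_contra hcon
    push Not at hcon
    rw [Finset.sum_eq_zero fun i _ => hcon i] at h1
    exact absurd h1 (by norm_num)
  obtain ⟨i0, hi0⟩ := h3
  have h4 := Finset.add_sum_erase Finset.univ (fun i => d i j - 1) (Finset.mem_univ i0)
  rw [h1] at h4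
  refine ⟨i0, by omega, fun i hi => ?_⟩
  have h5 : ∑ i ∈ Finset.univ.erase i0, (d i j - 1) = 0 := by omega
  have h6 := (Finset.sum_eq_zero_iff.1 h5) i (Finset.mem_erase.2 ⟨hi, Finset.mem_univ _⟩)
  have := h.pos i j
  omega

end Pool.Agent.Helper45.MX
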