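import Pool.Agent.Helper87.MX.Fr
import Pool.Agent.Helper17.GH.Gap

/-!
# MixingRates, WT: from the summability condition to atoms
-/

set_option autoImplicit false

open MeasureTheory Finset Filter

namespace Pool.Agent.Helper45.MX

open Pool.Agent.Helper87.MX
open Pool.Agent.Helper25.MX (psi psi_nonneg summable_ent)

theorem s_WT (h4 : S_W4) : S_WT := by
  intro μ _ h2 h3 η k hη hk hc hpi hF
  obtain ⟨F, hW, hs⟩ := hF
  by_contra hne
  push Not at hne
  refine Helper17.GH.not_summable_ent (ν := μ) h2 h3 hne ?_
  have hb := h4 μ inferInstance η k (cf μ k) F hk hc hη hpi hW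
  have := summable_ent (a := fun j => psi (μ.real {x | ‖cf μ k‖ / 8 ≤ ‖wav k (F j) x - cf μ k‖}))
    (H := ent μ) (C := 2 * k + 2) (fun j => psi_nonneg measureReal_nonneg measureReal_le_one)
    (fun K => Finset.sum_nonneg fun i _ =>
      Real.negMulLog_nonneg measureReal_nonneg measureReal_le_one) ?_ ?_
  · exact this
  · exact hb
  · exact hs

end Pool.Agent.Helper45.MX
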